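import Pool.Agent.Helper98.WF.St

/-!
# Project WF (MP_bae8ce_ag), module RHO: representatives modulo a monic irreducible polynomial
-/

set_option autoImplicit false

open Pool.Agent.Helper98.WF
open Polynomial

namespace Pool.Agent.Helper60.WF.M_RHO

section

variable {F : Type} [Field F] {d : ℕ} {P : F[X]}

theorem dpos (h : PrD d P) : 0 < d := by
  obtain ⟨_, h2, h3⟩ := h
  rw [← h3]
  exact h2.natDegree_pos

theorem mk_rho (h : PrD d P) (x : AdjoinRoot P) : AdjoinRoot.mk P (rho P x) = x := by
  have h1 := h.1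
  unfold rho
  have hs := Function.surjInv_eq (AdjoinRoot.mk_surjective (g := P)) x
  set f := Function.surjInv (AdjoinRoot.mk_surjective (g := P)) x
  have e : f %ₘ P = f - P * (f /ₘ P) := Polynomial.modByMonic_eq_sub_mul_div f P
  rw [e, map_sub, map_mul, AdjoinRoot.mk_self, zero_mul, sub_zero, hs]

theorem natDegree_rho (h : PrD d P) (x : AdjoinRoot P) : (rho P x).natDegree < d := by
  have hd := dpos h
  obtain ⟨h1, _, h3⟩ := h
  unfold rho
  rw [← h3]
  refine Polynomial.natDegree_modByMonic_lt _ h1 ?_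
  intro h0
  rw [h0, natDegree_one] at h3
  omega

theorem uniq (h : PrD d P) {a b : F[X]} (hab : AdjoinRoot.mk P a = AdjoinRoot.mk P b)
    (ha : a.natDegree < d) (hb : b.natDegree < d) : a = b := by
  obtain ⟨s, hs⟩ := AdjoinRoot.mk_eq_mk.1 hab
  by_contra hne
  have hne' : a - b ≠ 0 := sub_ne_zero.2 hne
  have hs0 : s ≠ 0 := by
    rintro rfl
    rw [mul_zero] at hs
    exact hne' hs
  have h1 : (a - b).natDegree = P.natDegree + s.natDegree := by
    rw [hs, natDegree_mul h.2.1.ne_zero hs0]
  have h2 : (a - b).natDegree < d := lt_of_le_of_lt (natDegree_sub_le a b) (max_lt ha hb)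
  rw [h.2.2] at h1
  omega

theorem stRHO : StRHO := by
  intro F _ d P h
  refine ⟨dpos h, mk_rho h, natDegree_rho h, ?_, ?_, ?_, ?_, ?_, ?_⟩
  · intro x y
    refine uniq h ?_ (natDegree_rho h _) ?_
    · rw [map_sub, mk_rho h, mk_rho h, mk_rho h]
    · exact lt_of_le_of_lt (natDegree_sub_le _ _) (max_lt (natDegree_rho h _) (natDegree_rho h _))
  · refine uniq h ?_ (natDegree_rho h _) ?_
    · rw [mk_rho h, map_one]
    · rw [natDegree_one]
      exact dpos h
  · intro x
    constructor
    · intro h0
      rw [← mk_rho h x, h0, map_zero]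
    · rintro rfl
      refine uniq h ?_ (natDegree_rho h _) ?_
      · rw [mk_rho h, map_zero]
      · rw [natDegree_zero]
        exact dpos h
  · intro a ha
    refine uniq h ?_ (natDegree_rho h _) ha
    rw [mk_rho h]
  · intro a b e he hab ha hb
    obtain ⟨s, hs⟩ := AdjoinRoot.mk_eq_mk.1 hab
    refine ⟨s, hs, ?_⟩
    by_cases hs0 : s = 0
    · rw [hs0, natDegree_zero]
      exact he
    · have h1 : (a - b).natDegree = P.natDegree + s.natDegree := by
        rw [hs, natDegree_mul h.2.1.ne_zero hs0]
      have h2 : (a - b).natDegree < d + e := lt_of_le_of_lt (natDegree_sub_le a b) (max_lt ha hb)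
      rw [h.2.2] at h1
      omega
  · intro a ha0 ha h0
    apply ha0
    refine uniq h ?_ ha ?_
    · rw [h0, map_zero]
    · rw [natDegree_zero]
      exact dpos h

end

end Pool.Agent.Helper60.WF.M_RHO
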